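import Mathlib
import Pool.Agent.H.MP_08eaf3_pr.Z.Fin

set_option autoImplicit false

open MeasureTheory ProbabilityTheory Filter Topology

namespace Pool.Agent.Results.MP_08eaf3_pr.TemperatureChaos

/-- The value `±1` of a spin. -/
def spin (b : Bool) : ℝ := if b then 1 else -1

/-- The Sherrington-Kirkpatrick Hamiltonian `H_N(σ) = N^(-1/2) ∑_{i,j} g_ij σ_i σ_j`. -/
noncomputable def hamiltonian {N : ℕ} (g : Fin N → Fin N → ℝ) (σ : Fin N → Bool) : ℝ :=
  (∑ i, ∑ j, g i j * spin (σ i) * spin (σ j)) / Real.sqrt N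

/-- The partition function `Z_N(β) = ∑_ρ exp (β H_N(ρ))`. -/
noncomputable def partitionFunction {N : ℕ} (g : Fin N → Fin N → ℝ) (β : ℝ) : ℝ :=
  ∑ ρ : Fin N → Bool, Real.exp (β * hamiltonian g ρ)

/-- The Gibbs measure `G_{N,β}(σ) = exp (β H_N(σ)) / Z_N(β)`. -/
noncomputable def gibbs {N : ℕ} (g : Fin N → Fin N → ℝ) (β : ℝ) (σ : Fin N → Bool) : ℝ :=
  Real.exp (β * hamiltonian g σ) / partitionFunction g β

/-- The overlap `R(σ, τ) = (1/N) ∑_i σ_i τ_i`. -/
noncomputable def overlap {N : ℕ} (σ τ : Fin N → Bool) : ℝ :=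
  (∑ i, spin (σ i) * spin (τ i)) / (N : ℝ)

/-- The probability `(G_{N,β} ⊗ G_{N,β'}) {(σ, τ) : |R(σ, τ)| ≥ ε}` for the disorder `g`. -/
noncomputable def farProb {N : ℕ} (g : Fin N → Fin N → ℝ) (β β' ε : ℝ) : ℝ :=
  ∑ σ : Fin N → Bool, ∑ τ : Fin N → Bool,
    if ε ≤ |overlap σ τ| then gibbs g β σ * gibbs g β' τ else 0

theorem farProb_eq {N : ℕ} (x : Fin N × Fin N → ℝ) (β β' ε : ℝ) :
    farProb (fun i j => x (i, j)) β β' ε =
      SKC.C.ZE (SKC.beN β β' Unit) (SKC.C.farU N ε) x /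
        SKC.C.ZE (SKC.beN β β' Unit) Finset.univ x := by
  have h2 : Real.sqrt 2 ≠ 0 := by positivity
  have hW := SKC.C.W6 (N := N) (β * Real.sqrt 2) (β' * Real.sqrt 2) ε x
  rw [mul_div_cancel_right₀ _ h2, mul_div_cancel_right₀ _ h2] at hW
  rw [hW]
  have hH : ∀ s : Fin N → Bool, Real.sqrt 2 * SKC.dot x (SKC.C.vh2 s) =
      hamiltonian (fun i j => x (i, j)) s := by
    intro s
    unfold SKC.dot SKC.C.vh2 hamiltonian
    rw [Finset.mul_sum, Finset.sum_div, Fintype.sum_prod_type]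
    refine Finset.sum_congr rfl fun i _ => ?_
    rw [Finset.sum_div]
    refine Finset.sum_congr rfl fun j _ => ?_
    show Real.sqrt 2 * (x (i, j) * (spin (s i) * spin (s j) / Real.sqrt N / Real.sqrt 2)) = _
    field_simp
  unfold SKC.C.Fr
  simp only [mul_assoc, hH]
  unfold farProb gibbs partitionFunction
  rw [Finset.sum_div]
  refine Finset.sum_congr rfl fun s _ => ?_
  rw [Finset.sum_div]
  refine Finset.sum_congr rfl fun t _ => ?_
  show (if ε ≤ |overlap s t| then _ else _) = (if ε ≤ |overlap s t| then _ else _) / _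
  split_ifs
  · rw [div_mul_div_comm]
  · rw [zero_div]

/-- **Temperature chaos in the Sherrington-Kirkpatrick model.** -/
theorem result {Ω : Type*} [MeasurableSpace Ω] (P : Measure Ω) [IsProbabilityMeasure P]
    (g : ℕ × ℕ → Ω → ℝ) (hm : ∀ p, Measurable (g p)) (hind : iIndepFun g P)
    (hg : ∀ p, P.map (g p) = gaussianReal 0 1)
    (β β' : ℝ) (hβ : 0 < β) (hβ' : 0 < β') (hne : β ≠ β') (ε : ℝ) (hε : 0 < ε) :
    Tendsto (fun N : ℕ =>
      ∫ ω, farProb (fun i j : Fin N => g ((i : ℕ), (j : ℕ)) ω) β β' ε ∂P) atTop (𝓝 0) := by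
  have h1 := SKC.C.far_small β β' hβ.le hβ'.le (SKC.parisi _ hβ) (SKC.parisi _ hβ')
    (fun u hu => SKC.Z.noU _ _ hβ hβ' hne (SKC.parisi _ hβ) (SKC.parisi _ hβ') u hu) ε hε
  refine h1.congr fun N => ?_
  let c : Fin N × Fin N → ℕ × ℕ := fun p => ((p.1 : ℕ), (p.2 : ℕ))
  have hc : Function.Injective c := by
    rintro ⟨a, b⟩ ⟨a', b'⟩ h
    simp only [c, Prod.mk.injEq] at h
    exact Prod.ext (Fin.ext h.1) (Fin.ext h.2)
  have hlaw : P.map (fun ω (p : Fin N × Fin N) => g (c p) ω) = SKC.gam (Fin N × Fin N) := by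
    have h2 := (iIndepFun_iff_map_fun_eq_pi_map (fun p => (hm (c p)).aemeasurable)).1
      (hind.precomp hc)
    rw [h2]
    simp only [hg]
    rfl
  rw [← hlaw, integral_map]
  · refine integral_congr_ae (Eventually.of_forall fun ω => ?_)
    exact (farProb_eq (fun p : Fin N × Fin N => g (c p) ω) β β' ε).symm
  · exact (measurable_pi_lambda _ fun p => hm (c p)).aemeasurable
  · have hcont : Continuous (fun x : Fin N × Fin N → ℝ =>
        SKC.C.ZE (SKC.beN β β' Unit) (SKC.C.farU N ε) x /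
          SKC.C.ZE (SKC.beN β β' Unit) Finset.univ x) := by
      have h2 : Real.sqrt 2 ≠ 0 := by positivity
      have hW : (fun x : Fin N × Fin N → ℝ =>
        SKC.C.ZE (SKC.beN β β' Unit) (SKC.C.farU N ε) x /
          SKC.C.ZE (SKC.beN β β' Unit) Finset.univ x) =
          fun x => SKC.C.Fr (β * Real.sqrt 2) (β' * Real.sqrt 2) ε
            (fun s => SKC.dot x (SKC.C.vh2 s)) := by
        funext x
        have hW := SKC.C.W6 (N := N) (β * Real.sqrt 2) (β' * Real.sqrt 2) ε x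
        rw [mul_div_cancel_right₀ _ h2, mul_div_cancel_right₀ _ h2] at hW
        exact hW
      rw [hW]
      exact (SKC.C.W5 _ _ ε).comp (continuous_pi fun s => SKC.I.continuous_dot _)
    exact hcont.aestronglyMeasurable

end Pool.Agent.Results.MP_08eaf3_pr.TemperatureChaos
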